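import Pool.Agent.N102.FL.Stm

set_option autoImplicit false
set_option linter.unusedSectionVars false

/-!
# FL/SAT: saturation of a system of terms
-/

universe u

namespace Pool.Agent.N531.FL

open Pool.Agent.N102.FL

section
variable {k K : Type u} [Field k] [Field K] [Algebra k K] {T : Type}

/-- the terms of level at least `f` -/
def high (e : T → ℕ) (f : ℕ) : Set (Option T) := {o | ∀ t, o = some t → f ≤ e t}

/-- the space spanned by the terms of level at least `f` -/
noncomputable def Vs (k : Type u) {K : Type u} [Field k] [Field K] [Algebra k K] (p : ℕ)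
    (e : T → ℕ) (z : T → K) (f : ℕ) : Submodule k K :=
  Submodule.span k (pw p e z '' high e f)

/-- the space spanned by the terms of `Q` -/
noncomputable def Ls (k : Type u) {K : Type u} [Field k] [Field K] [Algebra k K] (p : ℕ)
    (e : T → ℕ) (z : T → K) (Q : Set T) : Submodule k K :=
  Submodule.span k (pw p e z '' (some '' Q))

/-- the criterion -/
theorem sat_of [Fintype T] (p : ℕ) (e : T → ℕ) (z : T → K)
    (h : ∀ (f : ℕ) (Q : Set T), (∀ t ∈ Q, e t < f) → ∀ σ ∈ Vs k p e z f, σ ∈ Ls k p e z Q →
      σ ∈ Submodule.span k (pw p e z '' {o | o ∈ high e f ∧ pw p e z o ∈ Ls k p e z Q})) :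
    Sat e (Pool.Agent.N102.FL.Rel k p e z) := by
  classical
  have hrel : ∀ c : Option T → k, c ∈ Pool.Agent.N102.FL.Rel k p e z ↔ ∑ o, c o • pw p e z o = 0 := by
    intro c
    unfold Pool.Agent.N102.FL.Rel
    rw [LinearMap.mem_ker, Fintype.linearCombination_apply]
  intro f c hc
  rw [hrel] at hc
  obtain ⟨Q, hQ⟩ : ∃ Q : Set T, Q = {t | e t < f ∧ c (some t) ≠ 0} := ⟨_, rfl⟩
  obtain ⟨σ, hσ⟩ : ∃ σ : K, σ = ∑ o, low e f c o • pw p e z o := ⟨_, rfl⟩
  have h1 : σ ∈ Ls k p e z Q := by
    rw [hσ]
    refine Submodule.sum_mem _ fun o _ => ?_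
    cases o with
    | none =>
      have : low e f c none = 0 := rfl
      rw [this, zero_smul]; exact Submodule.zero_mem _
    | some t =>
      by_cases h2 : e t < f ∧ c (some t) ≠ 0
      · apply Submodule.smul_mem
        apply Submodule.subset_span
        exact ⟨some t, ⟨t, by rw [hQ]; exact h2, rfl⟩, rfl⟩
      · have : low e f c (some t) = 0 := by
          show (if e t < f then c (some t) else 0) = 0
          split_ifs with h3
          · by_contra h4
            exact h2 ⟨h3, h4⟩
          · rfl
        rw [this, zero_smul]; exact Submodule.zero_mem _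
  have h2 : σ ∈ Vs k p e z f := by
    have h3 : σ = - ∑ o, (c o - low e f c o) • pw p e z o := by
      have : ∑ o, (c o - low e f c o) • pw p e z o =
          ∑ o, c o • pw p e z o - ∑ o, low e f c o • pw p e z o := by
        rw [← Finset.sum_sub_distrib]
        exact Finset.sum_congr rfl fun o _ => sub_smul _ _ _
      rw [this, hc, ← hσ]; ring
    rw [h3]
    apply Submodule.neg_mem
    refine Submodule.sum_mem _ fun o _ => ?_
    by_cases ho : o ∈ high e f
    · exact Submodule.smul_mem _ _ (Submodule.subset_span ⟨o, ho, rfl⟩)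
    · have : c o - low e f c o = 0 := by
        cases o with
        | none =>
          exfalso; apply ho
          intro t ht
          exact absurd ht (by simp)
        | some t =>
          have h5 : e t < f := by
            by_contra h6
            push Not at h6
            apply ho
            intro t' ht'
            rw [Option.some.injEq] at ht'
            rw [← ht']; exact h6
          show c (some t) - (if e t < f then c (some t) else 0) = 0
          rw [if_pos h5, sub_self]
      rw [this, zero_smul]; exact Submodule.zero_mem _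
  have h3 := h f Q (by rw [hQ]; exact fun t ht => ht.1) σ h2 h1
  rw [Finsupp.mem_span_image_iff_linearCombination] at h3
  obtain ⟨a, ha, ha2⟩ := h3
  rw [Finsupp.mem_supported] at ha
  have ha3 : ∑ o, a o • pw p e z o = σ := by
    rw [← ha2, Finsupp.linearCombination_apply, Finsupp.sum_fintype _ _ (by simp)]
  refine ⟨a, ?_, ?_⟩
  · intro o ho
    have h4 := ha (Finsupp.mem_support_iff.2 ho)
    refine ⟨h4.1, ?_⟩
    have h5 := h4.2
    unfold Ls at h5
    rw [Finsupp.mem_span_image_iff_linearCombination] at h5
    obtain ⟨b, hb, hb2⟩ := h5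
    rw [Finsupp.mem_supported] at hb
    have hb3 : ∑ o', b o' • pw p e z o' = pw p e z o := by
      rw [← hb2, Finsupp.linearCombination_apply, Finsupp.sum_fintype _ _ (by simp)]
    have hbo : b o = 0 := by
      by_contra hne
      obtain ⟨t, ht, hto⟩ := hb (Finsupp.mem_support_iff.2 hne)
      have h6 := h4.1 t hto.symm
      rw [hQ] at ht
      have := ht.1
      omega
    refine ⟨fun o' => (if o' = o then 1 else 0) - b o', ?_, ?_, ?_⟩
    · rw [hrel]
      simp only [sub_smul, Finset.sum_sub_distrib, ite_smul, one_smul, zero_smul,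
        Finset.sum_ite_eq', Finset.mem_univ, if_true]
      rw [hb3, sub_self]
    · simp only [if_true]
      rw [hbo, sub_zero]
      exact one_ne_zero
    · intro o' ho'
      by_cases h7 : o' = o
      · exact Or.inl h7
      · right
        simp only at ho'
        rw [if_neg h7, zero_sub, neg_ne_zero] at ho'
        obtain ⟨t, ht, hto⟩ := hb (Finsupp.mem_support_iff.2 ho')
        rw [hQ] at ht
        exact ⟨t, hto.symm, ht⟩
  · rw [hrel]
    simp only [sub_smul, Finset.sum_sub_distrib]
    rw [ha3, ← hσ, sub_self]

end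

section
variable {k K : Type u} [Field k] [Field K] [Algebra k K] {T : Type}

theorem Vs_anti (p : ℕ) (e : T → ℕ) (z : T → K) {f f' : ℕ} (h : f ≤ f') :
    Vs k p e z f' ≤ Vs k p e z f := by
  apply Submodule.span_mono
  apply Set.image_mono
  intro o ho t ht
  exact h.trans (ho t ht)

/-- roots -/
theorem root (p : ℕ) [Fact p.Prime] [CharP k p] [PerfectRing k p] (e : T → ℕ) (z : T → K)
    (f : ℕ) (σ : K) (hσ : σ ∈ Vs k p e z f) : ∃ g : K, g ^ p ^ f = σ := by
  have : CharP K p := charP_of_injective_algebraMap (algebraMap k K).injective p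
  have hp : p ^ f ≠ 0 := pow_ne_zero _ (Fact.out : p.Prime).ne_zero
  induction hσ using Submodule.span_induction with
  | mem x hx =>
    obtain ⟨o, ho, rfl⟩ := hx
    cases o with
    | none => exact ⟨1, one_pow _⟩
    | some t =>
      refine ⟨z t ^ p ^ (e t - f), ?_⟩
      show (z t ^ p ^ (e t - f)) ^ p ^ f = z t ^ p ^ e t
      rw [← pow_mul, ← pow_add, Nat.sub_add_cancel (ho t rfl)]
  | zero => exact ⟨0, zero_pow hp⟩
  | add x y _ _ hx hy =>
    obtain ⟨g, rfl⟩ := hx
    obtain ⟨h, rfl⟩ := hy
    exact ⟨g + h, add_pow_char_pow g h p f⟩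
  | smul a x _ hx =>
    obtain ⟨g, rfl⟩ := hx
    refine ⟨algebraMap k K ((iterateFrobeniusEquiv k p f).symm a) * g, ?_⟩
    rw [mul_pow, ← map_pow, Algebra.smul_def]
    congr 2
    have := (iterateFrobeniusEquiv k p f).apply_symm_apply a
    rwa [iterateFrobeniusEquiv_apply] at this

open Classical in
/-- finitely many nonzero generators -/
noncomputable def gen (W : Submodule k K) : Finset K :=
  if h : W.FG then h.choose.erase 0 else ∅

theorem span_gen (W : Submodule k K) (h : W.FG) : Submodule.span k (gen W : Set K) = W := by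
  classical
  unfold gen
  rw [dif_pos h, Finset.coe_erase, Submodule.span_sdiff_singleton_zero]
  exact h.choose_spec

theorem gen_ne (W : Submodule k K) {x : K} (hx : x ∈ gen W) : x ≠ 0 := by
  classical
  unfold gen at hx
  split_ifs at hx with h
  · exact Finset.ne_of_mem_erase hx
  · exact absurd hx (Finset.notMem_empty x)

theorem gen_mem (W : Submodule k K) {x : K} (hx : x ∈ gen W) : x ∈ W := by
  classical
  unfold gen at hx
  split_ifs at hx with h
  · have h1 := Finset.mem_of_mem_erase hx
    have h2 : x ∈ Submodule.span k (h.choose : Set K) := Submodule.subset_span h1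
    rwa [h.choose_spec] at h2
  · exact absurd hx (Finset.notMem_empty x)

end

section
variable {k K : Type u} [Field k] [Field K] [Algebra k K] {T : Type}

open Classical in
/-- the new terms of level `f`, if `U` is the set of the terms of level less than `f` -/
noncomputable def newt (k : Type u) {K : Type u} [Field k] [Field K] [Algebra k K] (p : ℕ)
    (e : T → ℕ) (z : T → K) (f : ℕ) (U : Finset K) : Finset K :=
  U.powerset.biUnion fun Q => gen (Vs k p e z f ⊓ Submodule.span k (Q : Set K))

open Classical in
/-- the terms of level less than `f` of the final system -/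
noncomputable def UU (k : Type u) {K : Type u} [Field k] [Field K] [Algebra k K] [Fintype T]
    (p : ℕ) (e : T → ℕ) (z : T → K) : ℕ → Finset K
  | 0 => ∅
  | f + 1 => UU k p e z f ∪ ((Finset.univ.filter fun t => e t = f).image fun t => z t ^ p ^ e t) ∪
      newt k p e z f (UU k p e z f)

variable [Fintype T]

theorem UU_mono (p : ℕ) (e : T → ℕ) (z : T → K) : Monotone (UU k p e z) := by
  classical
  apply monotone_nat_of_le_succ
  intro f
  intro x hx
  rw [UU, Finset.mem_union, Finset.mem_union]
  exact Or.inl (Or.inl hx)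

theorem old_mem (p : ℕ) (e : T → ℕ) (z : T → K) (t : T) {f : ℕ} (h : e t < f) :
    z t ^ p ^ e t ∈ UU k p e z f := by
  classical
  apply UU_mono p e z (Nat.succ_le_of_lt h)
  rw [UU, Finset.mem_union, Finset.mem_union]
  left; right
  exact Finset.mem_image.2 ⟨t, Finset.mem_filter.2 ⟨Finset.mem_univ _, rfl⟩, rfl⟩

theorem new_mem (p : ℕ) (e : T → ℕ) (z : T → K) {g f : ℕ} (h : g < f) {x : K}
    (hx : x ∈ newt k p e z g (UU k p e z g)) : x ∈ UU k p e z f := by
  classical
  apply UU_mono p e z (Nat.succ_le_of_lt h)
  rw [UU, Finset.mem_union, Finset.mem_union]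
  exact Or.inr hx

theorem newt_Vs (p : ℕ) (e : T → ℕ) (z : T → K) {f : ℕ} {U : Finset K} {x : K}
    (hx : x ∈ newt k p e z f U) : x ∈ Vs k p e z f ∧ x ≠ 0 := by
  classical
  unfold newt at hx
  rw [Finset.mem_biUnion] at hx
  obtain ⟨Q, -, hx⟩ := hx
  exact ⟨(gen_mem _ hx).1, gen_ne _ hx⟩

end

theorem t_sat : S_SAT.{u} := by
  classical
  intro p _ k K _ _ _ _ _ T _ e z hz
  obtain ⟨N, hN⟩ : ∃ N : ℕ, ∀ t, e t ≤ N :=
    ⟨∑ t, e t, fun t => Finset.single_le_sum (fun _ _ => Nat.zero_le _) (Finset.mem_univ t)⟩
  let J : Type u := Σ f : Fin (N + 1), {x : K // x ∈ newt k p e z f (UU k p e z f)}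
  let φ : J ≃ Fin (Fintype.card J) := Fintype.equivFin J
  have hroot : ∀ j : J, ∃ g : K, g ^ p ^ (j.1 : ℕ) = (j.2 : K) := fun j =>
    root p e z (j.1 : ℕ) _ (newt_Vs p e z j.2.2).1
  choose g hg using hroot
  have hp : ∀ f : ℕ, p ^ f ≠ 0 := fun f => pow_ne_zero _ (Fact.out : p.Prime).ne_zero
  let e' : Fin (Fintype.card J) → ℕ := fun i => ((φ.symm i).1 : ℕ)
  let z' : Fin (Fintype.card J) → K := fun i => g (φ.symm i)
  have hterm : ∀ i, z' i ^ p ^ e' i = ((φ.symm i).2 : K) := fun i => hg (φ.symm i)
  -- the high terms of the new system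
  have hV : ∀ f, Vs k p (Sum.elim e e') (Sum.elim z z') f ≤ Vs k p e z f := by
    intro f
    unfold Vs
    rw [Submodule.span_le]
    rintro x ⟨o, ho, rfl⟩
    rw [SetLike.mem_coe]
    cases o with
    | none => exact Submodule.subset_span ⟨none, fun t ht => absurd ht (by simp), rfl⟩
    | some t =>
      cases t with
      | inl t =>
        refine Submodule.subset_span ⟨some t, ?_, rfl⟩
        intro t' ht'
        rw [Option.some.injEq] at ht'
        rw [← ht']
        exact ho (Sum.inl t) rfl
      | inr i =>
        have h1 : f ≤ e' i := ho (Sum.inr i) rfl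
        show z' i ^ p ^ e' i ∈ _
        rw [hterm]
        exact Vs_anti p e z h1 (newt_Vs p e z (φ.symm i).2.2).1
  refine ⟨Fin (Fintype.card J), inferInstance, e', z', ?_, ?_, ?_⟩
  · intro i hi
    have h1 := hterm i
    rw [hi, zero_pow (hp _)] at h1
    exact (newt_Vs p e z (φ.symm i).2.2).2 h1.symm
  · apply le_antisymm
    · rw [Submodule.span_le]
      rintro x ⟨o, rfl⟩
      have h1 : pw p (Sum.elim e e') (Sum.elim z z') o ∈
          Vs k p (Sum.elim e e') (Sum.elim z z') 0 :=
        Submodule.subset_span ⟨o, fun _ _ => Nat.zero_le _, rfl⟩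
      have h2 := hV 0 h1
      exact Submodule.span_mono (Set.image_subset_range _ _) h2
    · rw [Submodule.span_le]
      rintro x ⟨o, rfl⟩
      apply Submodule.subset_span
      cases o with
      | none => exact ⟨none, rfl⟩
      | some t => exact ⟨some (Sum.inl t), rfl⟩
  · apply sat_of
    intro f Q hQ σ hσ1 hσ2
    rcases le_or_gt f N with hf | hf
    · -- the terms of `Q`
      have hQU : (pw p (Sum.elim e e') (Sum.elim z z') '' (some '' Q)) ⊆
          (UU k p e z f : Set K) := by
        rintro x ⟨o, ⟨t, ht, rfl⟩, rfl⟩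
        have h1 := hQ t ht
        cases t with
        | inl t => exact old_mem p e z t h1
        | inr i =>
          show z' i ^ p ^ e' i ∈ _
          rw [hterm]
          exact new_mem p e z h1 (φ.symm i).2.2
      have hfin : (pw p (Sum.elim e e') (Sum.elim z z') '' (some '' Q)).Finite :=
        (UU k p e z f).finite_toSet.subset hQU
      obtain ⟨Q', hQ'⟩ : ∃ Q' : Finset K, Q' = hfin.toFinset := ⟨_, rfl⟩
      have hQ'2 : (Q' : Set K) = pw p (Sum.elim e e') (Sum.elim z z') '' (some '' Q) := by
        rw [hQ', Set.Finite.coe_toFinset]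
      have hL : Ls k p (Sum.elim e e') (Sum.elim z z') Q = Submodule.span k (Q' : Set K) := by
        rw [hQ'2]; rfl
      have hFG : (Vs k p e z f ⊓ Submodule.span k (Q' : Set K)).FG :=
        Submodule.FG.of_le ⟨Q', rfl⟩ inf_le_right
      have h3 : σ ∈ Vs k p e z f ⊓ Submodule.span k (Q' : Set K) :=
        ⟨hV f hσ1, by rw [← hL]; exact hσ2⟩
      rw [← span_gen _ hFG] at h3
      refine Submodule.span_mono ?_ h3
      intro x hx
      have hxn : x ∈ newt k p e z f (UU k p e z f) := by
        unfold newt
        rw [Finset.mem_biUnion]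
        refine ⟨Q', ?_, hx⟩
        rw [Finset.mem_powerset]
        intro y hy
        apply hQU
        rw [← hQ'2]
        exact hy
      let j : J := ⟨⟨f, Nat.lt_succ_of_le hf⟩, ⟨x, hxn⟩⟩
      have hj : pw p (Sum.elim e e') (Sum.elim z z') (some (Sum.inr (φ j))) = x := by
        show z' (φ j) ^ p ^ e' (φ j) = x
        rw [hterm, Equiv.symm_apply_apply]
      refine ⟨some (Sum.inr (φ j)), ⟨?_, ?_⟩, hj⟩
      · intro t ht
        rw [Option.some.injEq] at ht
        rw [← ht]
        show f ≤ e' (φ j)
        simp only [e', Equiv.symm_apply_apply]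
        exact le_rfl
      · rw [hj, hL]
        exact (gen_mem _ hx).2
    · -- no variables of level at least `f`
      have h1 : high (Sum.elim e e') f ⊆ {none} := by
        intro o ho
        cases o with
        | none => rfl
        | some t =>
          exfalso
          have h2 := ho t rfl
          cases t with
          | inl t =>
            have : f ≤ e t := h2
            have := hN t
            omega
          | inr i =>
            have h3 : f ≤ ((φ.symm i).1 : ℕ) := h2
            have := (φ.symm i).1.2
            omega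
      have h2 : σ ∈ Submodule.span k ({(1 : K)} : Set K) := by
        refine Submodule.span_mono ?_ hσ1
        rintro x ⟨o, ho, rfl⟩
        have := h1 ho
        rw [Set.mem_singleton_iff] at this
        rw [this]; rfl
      rw [Submodule.mem_span_singleton] at h2
      obtain ⟨a, ha⟩ := h2
      rcases eq_or_ne a 0 with ha0 | ha0
      · rw [← ha, ha0, zero_smul]; exact Submodule.zero_mem _
      · have h3 : (1 : K) ∈ Ls k p (Sum.elim e e') (Sum.elim z z') Q := by
          have : (1 : K) = a⁻¹ • σ := by rw [← ha, smul_smul, inv_mul_cancel₀ ha0, one_smul]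
          rw [this]
          exact Submodule.smul_mem _ _ hσ2
        rw [← ha]
        apply Submodule.smul_mem
        apply Submodule.subset_span
        exact ⟨none, ⟨fun t ht => absurd ht (by simp), h3⟩, rfl⟩

end Pool.Agent.N531.FL
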